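import Mathlib

/-!
# The coefficient bound for the Bazilevic class B1(alpha), alpha >= 1

For real `α ≥ 1`, every `f` in the class `B₁(α)` and every `n ≥ 2` we prove
`|a_n| ≤ 2 / (n - 1 + α)`.

Idea. Put `P = (f/z)^α`, `h = P + z P'/α` (so `Re h > 0`, `h(0) = 1`), `m_k = α/(k+α)`; then the
`k`-th coefficient of `P` is `m_k h_k`.

1. (`abstract_bound`, `caratheodory_bound`) For every log-convex positive sequence `m` with
   `m_0 = 1` the reciprocal of `1 + ∑ m_k h_k z^k` has coefficients bounded by `2 m_n`.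
   This is a Hilbert space argument: the vectors `y_n = ∑_{j=1}^n m_j q_{n-j} Z^j e` satisfy
   `y_n = ∑_k c_k Z^k U y_{n-k}` with isometries `Z`, `U` and with the renewal coefficients
   `c_k ≥ 0` of `m` (Kaluza), so `‖y_n‖ ≤ m_n`.
2. Applied to `m_k` replaced by `u m_k` (`0 < u ≤ 1`) this bounds the coefficients of
   `1/(1 + u (P - 1))` by `2 u m_n`.
3. (`power_bound`) `P^γ` with `0 < γ < 1` is a mixture of the functions `1/(1 + u (P - 1))`
   (Beta integral), which gives `|[P^γ]_n| ≤ 2 γ m_n`; for `γ = 1/α` this is the claim.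
-/

set_option autoImplicit false

namespace Pool.Agent.Results.MP_7a60ac_an.BazilevicBound

open Finset

section Kaluza

/-- The renewal coefficients attached to a sequence `m`. -/
noncomputable def renewal (m : ℕ → ℝ) : ℕ → ℝ
  | n => m (n + 1) - ∑ k : Fin n, renewal m k * m (n - k)

lemma renewal_eq (m : ℕ → ℝ) (n : ℕ) :
    renewal m n = m (n + 1) - ∑ k ∈ range n, renewal m k * m (n - k) := by
  rw [renewal, ← Fin.sum_univ_eq_sum_range (fun k => renewal m k * m (n - k)) n]

lemma renewal_sum (m : ℕ → ℝ) (hm0 : m 0 = 1) (n : ℕ) :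
    m (n + 1) = ∑ k ∈ range (n + 1), renewal m k * m (n - k) := by
  rw [Finset.sum_range_succ, renewal_eq m n]
  simp [hm0]

/-- Kaluza: the renewal coefficients of a log-convex positive sequence are nonnegative. -/
lemma renewal_nonneg (m : ℕ → ℝ) (hm0 : m 0 = 1) (hpos : ∀ n, 0 < m n)
    (hlc : ∀ n, m (n + 1) * m (n + 1) ≤ m n * m (n + 2)) (n : ℕ) : 0 ≤ renewal m n := by
  -- ratio monotonicity
  have hratio : ∀ i j, i ≤ j → m (i + 1) / m i ≤ m (j + 1) / m j := by
    intro i j hij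
    induction hij with
    | refl => exact le_rfl
    | step h ih =>
      rename_i k
      refine ih.trans ?_
      rw [div_le_div_iff₀ (hpos _) (hpos _)]
      have := hlc k
      nlinarith [this]
  induction n using Nat.strong_induction_on with
  | _ n ih =>
    rcases Nat.eq_zero_or_pos n with h0 | hn
    · subst h0
      rw [renewal_eq]; simp; exact (hpos 1).le
    · obtain ⟨p, rfl⟩ : ∃ p, n = p + 1 := ⟨n - 1, by omega⟩
      rw [renewal_eq]
      have h1 : m (p + 1 + 1) = ∑ k ∈ range (p + 1), renewal m k * (m (p - k) * (m (p + 1 + 1) / m (p + 1))) := by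
        have h2 := renewal_sum m hm0 p
        have h3 : m (p + 1 + 1) = m (p + 1) * (m (p + 1 + 1) / m (p + 1)) := by
          field_simp [(hpos (p + 1)).ne']
        conv_lhs => rw [h3]
        conv_lhs => rw [h2]
        rw [Finset.sum_mul]
        refine Finset.sum_congr rfl fun k _ => ?_
        rw [← h2]
        ring
      rw [h1, ← Finset.sum_sub_distrib]
      refine Finset.sum_nonneg fun k hk => ?_
      rw [Finset.mem_range] at hk
      rw [← mul_sub]
      refine mul_nonneg (ih k (by omega)) ?_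
      rw [sub_nonneg]
      have h4 := hratio (p - k) (p + 1) (by omega)
      have h5 : p + 1 - k = p - k + 1 := by omega
      rw [h5]
      calc m (p - k + 1) = m (p - k) * (m (p - k + 1) / m (p - k)) := by
            field_simp [(hpos (p - k)).ne']
        _ ≤ m (p - k) * (m (p + 1 + 1) / m (p + 1)) :=
            mul_le_mul_of_nonneg_left h4 (hpos _).le

end Kaluza

section Abstract

variable {F : Type*} [SeminormedAddCommGroup F] [InnerProductSpace ℂ F]

lemma norm_reflect (e v : F) (he : ‖e‖ = 1) : ‖v - (2 * inner ℂ e v) • e‖ = ‖v‖ := by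
  have h := norm_sub_sq (𝕜 := ℂ) v ((2 * inner ℂ e v) • e)
  have h1 : RCLike.re (inner ℂ v ((2 * inner ℂ e v) • e)) = 2 * ‖inner ℂ e v‖ ^ 2 := by
    rw [inner_smul_right, mul_assoc, ← inner_conj_symm v e, Complex.mul_conj]
    simp [Complex.normSq_eq_norm_sq, ← Complex.ofReal_pow]
  have h2 : ‖(2 * inner ℂ e v) • e‖ = 2 * ‖inner ℂ e v‖ := by
    rw [norm_smul, he, norm_mul]; simp
  rw [h1, h2] at h
  have h3 : ‖v - (2 * inner ℂ e v) • e‖ ^ 2 = ‖v‖ ^ 2 := by rw [h]; ring
  exact (sq_eq_sq₀ (norm_nonneg _) (norm_nonneg _)).1 h3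

/-- Main abstract estimate. `Z` is an isometry, `e` a unit vector, `τ j = ⟪e, Z^j e⟫`,
`q` is the reciprocal of `1 + ∑ 2 m_j τ_j z^j`. -/
lemma abstract_bound (Z : F →ₗ[ℂ] F) (hZ : ∀ v, ‖Z v‖ = ‖v‖) (e : F) (he : ‖e‖ = 1)
    (m : ℕ → ℝ) (hm0 : m 0 = 1) (hpos : ∀ n, 0 < m n)
    (hlc : ∀ n, m (n + 1) * m (n + 1) ≤ m n * m (n + 2))
    (q : ℕ → ℂ) (hq0 : q 0 = 1)
    (hq : ∀ n, q (n + 1) = - ∑ j ∈ range (n + 1),
      (2 * (m (j + 1) : ℂ) * inner ℂ e ((Z ^ (j + 1)) e)) * q (n - j)) (n : ℕ) :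
    ‖q (n + 1)‖ ≤ 2 * m (n + 1) := by
  set c : ℕ → ℝ := renewal m with hc
  have hcn : ∀ k, 0 ≤ c k := renewal_nonneg m hm0 hpos hlc
  have hcs : ∀ n, m (n + 1) = ∑ k ∈ range (n + 1), c k * m (n - k) := renewal_sum m hm0
  have hZp : ∀ k v, ‖(Z ^ k) v‖ = ‖v‖ := by
    intro k
    induction k with
    | zero => intro v; simp
    | succ k ih => intro v; rw [pow_succ, Module.End.mul_apply, ih, hZ]
  let y : ℕ → F := fun n => ∑ j ∈ range n, ((m (j + 1) : ℂ) * q (n - 1 - j)) • (Z ^ (j + 1)) e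
  have hA : ∀ n, 2 * inner ℂ e (y (n + 1)) = - q (n + 1) := by
    intro n
    simp only [y]
    rw [inner_sum, hq n, neg_neg, Finset.mul_sum]
    refine Finset.sum_congr rfl fun j _ => ?_
    rw [inner_smul_right]
    simp only [Nat.add_sub_cancel]
    ring
  -- y k + q k e as a full sum
  have hfull : ∀ k, y k + q k • e = ∑ j ∈ range (k + 1), ((m j : ℂ) * q (k - j)) • (Z ^ j) e := by
    intro k
    rw [Finset.sum_range_succ']
    simp only [y, hm0]
    congr 1
    · refine Finset.sum_congr rfl fun j _ => ?_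
      congr 3
      omega
    · simp
  have hB : ∀ n, y (n + 1) = ∑ k ∈ range (n + 1), (c k : ℂ) • (Z ^ (k + 1)) (y (n - k) + q (n - k) • e) := by
    intro n
    have h1 := Finset.sum_range_diag_flip (n + 1)
      (fun k j => ((c k : ℂ) * (m j : ℂ) * q (n - k - j)) • (Z ^ (k + 1 + j)) e)
    have h2 : ∑ k ∈ range (n + 1), (c k : ℂ) • (Z ^ (k + 1)) (y (n - k) + q (n - k) • e)
        = ∑ k ∈ range (n + 1), ∑ j ∈ range (n + 1 - k),
          ((c k : ℂ) * (m j : ℂ) * q (n - k - j)) • (Z ^ (k + 1 + j)) e := by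
      refine Finset.sum_congr rfl fun k hk => ?_
      rw [Finset.mem_range] at hk
      rw [hfull, map_sum, Finset.smul_sum]
      have : n - k + 1 = n + 1 - k := by omega
      rw [this]
      refine Finset.sum_congr rfl fun j _ => ?_
      rw [map_smul, smul_smul, ← Module.End.mul_apply, ← pow_add]
      congr 1
      ring
    rw [h2, ← h1]
    simp only [y]
    refine Finset.sum_congr rfl fun i hi => ?_
    rw [Finset.mem_range] at hi
    rw [hcs i]
    push_cast
    rw [Finset.sum_mul, Finset.sum_smul]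
    refine Finset.sum_congr rfl fun k hk => ?_
    rw [Finset.mem_range] at hk
    have e1 : n - i = n - k - (i - k) := by omega
    have e2 : i + 1 = k + 1 + (i - k) := by omega
    rw [e1, e2]
  have hnorm : ∀ n, ‖y n + q n • e‖ ≤ m n := by
    intro n
    induction n using Nat.strong_induction_on with
    | _ n ih =>
      rcases Nat.eq_zero_or_pos n with h0 | hn
      · subst h0
        simp [y, hq0, he, hm0]
      · obtain ⟨p, rfl⟩ : ∃ p, n = p + 1 := ⟨n - 1, by omega⟩
        have h1 : y (p + 1) + q (p + 1) • e = y (p + 1) - (2 * inner ℂ e (y (p + 1))) • e := by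
          rw [hA p]; simp
        rw [h1, norm_reflect e _ he, hB p]
        calc ‖∑ k ∈ range (p + 1), (c k : ℂ) • (Z ^ (k + 1)) (y (p - k) + q (p - k) • e)‖
            ≤ ∑ k ∈ range (p + 1), ‖(c k : ℂ) • (Z ^ (k + 1)) (y (p - k) + q (p - k) • e)‖ :=
              norm_sum_le _ _
          _ ≤ ∑ k ∈ range (p + 1), c k * m (p - k) := by
              refine Finset.sum_le_sum fun k hk => ?_
              rw [Finset.mem_range] at hk
              rw [norm_smul, hZp, Complex.norm_real, Real.norm_of_nonneg (hcn k)]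
              exact mul_le_mul_of_nonneg_left (ih (p - k) (by omega)) (hcn k)
          _ = m (p + 1) := (hcs p).symm
  have h1 : ‖y (n + 1)‖ ≤ m (n + 1) := by
    have h2 : y (n + 1) + q (n + 1) • e = y (n + 1) - (2 * inner ℂ e (y (n + 1))) • e := by
      rw [hA n]; simp
    have := hnorm (n + 1)
    rwa [h2, norm_reflect e _ he] at this
  have h3 : q (n + 1) = - (2 * inner ℂ e (y (n + 1))) := by rw [hA n]; ring
  rw [h3, norm_neg, norm_mul]
  have h4 : ‖inner ℂ e (y (n + 1))‖ ≤ ‖e‖ * ‖y (n + 1)‖ := norm_inner_le_norm _ _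
  rw [he, one_mul] at h4
  have : ‖(2 : ℂ)‖ = 2 := by simp
  rw [this]
  linarith

end Abstract

section Circle

open Polynomial

/-- The weighted sesquilinear form on polynomials. -/
noncomputable def ip (w : ℂ → ℝ) (r : ℝ) (A B : ℂ[X]) : ℂ :=
  Real.circleAverage
    (fun z => (starRingEnd ℂ) (A.eval (z / (r : ℂ))) * B.eval (z / (r : ℂ)) * (w z : ℂ)) 0 r

lemma ip_integrable (w : ℂ → ℝ) (r : ℝ) (hr : 0 < r) (hw : ContinuousOn w (Metric.sphere 0 r))
    (A B : ℂ[X]) : CircleIntegrable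
    (fun z => (starRingEnd ℂ) (A.eval (z / (r : ℂ))) * B.eval (z / (r : ℂ)) * (w z : ℂ)) 0 r := by
  apply ContinuousOn.circleIntegrable hr.le
  have h1 : Continuous (fun z : ℂ => (starRingEnd ℂ) (A.eval (z / (r : ℂ))) *
      B.eval (z / (r : ℂ))) := by fun_prop
  exact h1.continuousOn.mul (Complex.continuous_ofReal.comp_continuousOn hw)

@[instance_reducible] noncomputable def core (w : ℂ → ℝ) (r : ℝ) (hr : 0 < r) (hw : ContinuousOn w (Metric.sphere 0 r))
    (hw0 : ∀ z ∈ Metric.sphere (0 : ℂ) r, 0 ≤ w z) : PreInnerProductSpace.Core ℂ ℂ[X] where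
  inner := ip w r
  conj_inner_symm x y := by
    have h := ContinuousLinearMap.circleAverage_comp_comm
      (Complex.conjCLE.toContinuousLinearMap) (ip_integrable w r hr hw y x)
    have h2 : (starRingEnd ℂ) (ip w r y x) = Complex.conjCLE.toContinuousLinearMap (ip w r y x) := rfl
    rw [h2]
    unfold ip
    rw [← h]
    congr 1
    funext z
    simp only [Function.comp, ContinuousLinearEquiv.coe_coe, Complex.conjCLE_apply, map_mul,
      Complex.conj_conj, Complex.conj_ofReal]
    ring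
  re_inner_nonneg x := by
    have h := ContinuousLinearMap.circleAverage_comp_comm
      (Complex.reCLM) (ip_integrable w r hr hw x x)
    have h2 : RCLike.re (ip w r x x) = Complex.reCLM (ip w r x x) := rfl
    rw [h2]
    unfold ip
    rw [← h]
    apply Real.circleAverage_nonneg_of_nonneg
    intro z hz
    rw [abs_of_pos hr] at hz
    simp only [Function.comp, Complex.reCLM_apply]
    rw [← Complex.normSq_eq_conj_mul_self, ← Complex.ofReal_mul, Complex.ofReal_re]
    exact mul_nonneg (Complex.normSq_nonneg _) (hw0 z hz)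
  add_left x y z := by
    unfold ip
    rw [← Real.circleAverage_fun_add (ip_integrable w r hr hw x z) (ip_integrable w r hr hw y z)]
    congr 1
    funext t
    simp
    ring
  smul_left x y a := by
    unfold ip
    rw [← smul_eq_mul, ← Real.circleAverage_fun_smul]
    congr 1
    funext t
    simp
    ring

/-- Coefficient bound for the reciprocal of a damped Caratheodory function. -/
lemma caratheodory_bound (h : ℂ → ℂ) (hd : DifferentiableOn ℂ h (Metric.ball 0 1))
    (h0 : h 0 = 1) (hre : ∀ z ∈ Metric.ball (0 : ℂ) 1, 0 ≤ (h z).re)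
    (m : ℕ → ℝ) (hm0 : m 0 = 1) (hpos : ∀ n, 0 < m n)
    (hlc : ∀ n, m (n + 1) * m (n + 1) ≤ m n * m (n + 2))
    (q : ℕ → ℂ) (hq0 : q 0 = 1)
    (hq : ∀ n, q (n + 1) = - ∑ j ∈ range (n + 1),
      ((m (j + 1) : ℂ) * (iteratedDeriv (j + 1) h 0 / ((j + 1).factorial : ℂ))) * q (n - j)) (n : ℕ) :
    ‖q (n + 1)‖ ≤ 2 * m (n + 1) := by
  have key : ∀ r : ℝ, 0 < r → r < 1 → r ^ (n + 1) * ‖q (n + 1)‖ ≤ 2 * m (n + 1) := by
    intro r hr hr1
    have hsub : Metric.closedBall (0 : ℂ) r ⊆ Metric.ball 0 1 := Metric.closedBall_subset_ball hr1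
    have hsph : Metric.sphere (0 : ℂ) r ⊆ Metric.ball 0 1 :=
      Metric.sphere_subset_closedBall.trans hsub
    have hhc : ContinuousOn h (Metric.sphere 0 r) := hd.continuousOn.mono hsph
    have hw : ContinuousOn (fun z => (h z).re) (Metric.sphere 0 r) :=
      Complex.continuous_re.comp_continuousOn hhc
    have hrabs : |r| = r := abs_of_pos hr
    have hr0 : (r : ℂ) ≠ 0 := by exact_mod_cast hr.ne'
    let C := core (fun z => (h z).re) r hr hw (fun z hz => hre z (hsph hz))
    let _i1 : SeminormedAddCommGroup ℂ[X] := @InnerProductSpace.Core.toSeminormedAddCommGroup ℂ ℂ[X] _ _ _ C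
    let _i2 : InnerProductSpace ℂ ℂ[X] := InnerProductSpace.ofCore C
    have hinner : ∀ A B : ℂ[X], inner ℂ A B = ip (fun z => (h z).re) r A B := fun A B => rfl
    have hnorm : ∀ A : ℂ[X], ‖A‖ ^ 2 = (ip (fun z => (h z).re) r A A).re := by
      intro A
      rw [← hinner, ← inner_self_eq_norm_sq (𝕜 := ℂ)]; rfl
    let Z : ℂ[X] →ₗ[ℂ] ℂ[X] := LinearMap.mulLeft ℂ (X : ℂ[X])
    have hZ : ∀ v, ‖Z v‖ = ‖v‖ := by
      intro v
      have : ‖Z v‖ ^ 2 = ‖v‖ ^ 2 := by
        rw [hnorm, hnorm]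
        congr 1
        unfold ip
        apply Real.circleAverage_congr_sphere
        intro z hz
        rw [hrabs] at hz
        simp only [Z, LinearMap.mulLeft_apply, eval_mul, eval_X, map_mul]
        have hz' : ‖z‖ = r := by simpa using hz
        have h1 : (starRingEnd ℂ) (z / (r : ℂ)) * (z / (r : ℂ)) = 1 := by
          rw [← Complex.normSq_eq_conj_mul_self, Complex.normSq_eq_norm_sq, norm_div, hz',
            Complex.norm_real, Real.norm_of_nonneg hr.le, div_self hr.ne']
          simp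
        calc (starRingEnd ℂ) (z / (r : ℂ)) * (starRingEnd ℂ) (eval (z / (r : ℂ)) v) *
              (z / (r : ℂ) * eval (z / (r : ℂ)) v) * (((h z).re : ℝ) : ℂ)
            = ((starRingEnd ℂ) (z / (r : ℂ)) * (z / (r : ℂ))) *
              ((starRingEnd ℂ) (eval (z / (r : ℂ)) v) * eval (z / (r : ℂ)) v * (((h z).re : ℝ) : ℂ)) := by ring
          _ = _ := by rw [h1, one_mul]
      exact (sq_eq_sq₀ (norm_nonneg _) (norm_nonneg _)).1 this
    have hdc : DiffContOnCl ℂ h (Metric.ball 0 |r|) := by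
      rw [hrabs]
      exact (hd.mono hsub).diffContOnCl_ball (le_refl _)
    have hD : ∀ j : ℕ, DiffContOnCl ℂ (fun z => (z / (r : ℂ)) ^ j * h z) (Metric.ball 0 |r|) := by
      intro j
      have : DiffContOnCl ℂ (fun z : ℂ => (z / (r : ℂ)) ^ j) (Metric.ball 0 |r|) :=
        (Differentiable.diffContOnCl (by fun_prop))
      exact this.smul hdc
    have havg : ∀ j : ℕ, Real.circleAverage (fun z => (z / (r : ℂ)) ^ j * h z) 0 r = 0 ^ j := by
      intro j
      rw [(hD j).circleAverage]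
      simp [h0]
    have hcoef : ∀ j : ℕ, Real.circleAverage (fun z => ((r : ℂ) / z) ^ j * h z) 0 r
        = (r : ℂ) ^ j * (iteratedDeriv j h 0 / (j.factorial : ℂ)) := by
      intro j
      rw [Real.circleAverage_eq_circleIntegral hr.ne']
      have h1 := DifferentiableOn.circleIntegral_one_div_sub_center_pow_smul hr j (hd.mono hsub)
      have h2 : (∮ z in C(0, r), (z - 0)⁻¹ • (((r : ℂ) / z) ^ j * h z))
          = (r : ℂ) ^ j * ∮ z in C(0, r), (1 / (z - 0) ^ (j + 1)) • h z := by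
        rw [← circleIntegral.integral_const_mul]
        apply circleIntegral.integral_congr hr.le
        intro z hz
        have hz0 : z ≠ 0 := by
          rintro rfl
          simp at hz
          exact hr.ne hz
        simp only [sub_zero, smul_eq_mul, div_pow]
        field_simp
        ring
      rw [h2, h1]
      have hpi : (2 * (Real.pi : ℂ) * Complex.I) ≠ 0 := Complex.two_pi_I_ne_zero
      simp only [smul_eq_mul]
      field_simp
    have hτ : ∀ j : ℕ, inner ℂ (1 : ℂ[X]) ((Z ^ j) 1)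
        = (0 ^ j + (r : ℂ) ^ j * (starRingEnd ℂ) (iteratedDeriv j h 0 / (j.factorial : ℂ))) / 2 := by
      intro j
      have hZj : (Z ^ j) 1 = X ^ j := by
        induction j with
        | zero => simp
        | succ j ih => rw [pow_succ', Module.End.mul_apply, ih]; simp [Z, pow_succ']
      rw [hinner, hZj]
      unfold ip
      have hconj := ContinuousLinearMap.circleAverage_comp_comm (c := 0) (R := r)
        (f := fun z => ((r : ℂ) / z) ^ j * h z) (Complex.conjCLE.toContinuousLinearMap) (by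
          apply ContinuousOn.circleIntegrable hr.le
          have : ∀ z ∈ Metric.sphere (0 : ℂ) r, z ≠ 0 := by
            rintro z hz rfl
            simp at hz
            exact hr.ne hz
          exact ((continuousOn_const.div continuousOn_id this).pow j).mul hhc)
      rw [hcoef] at hconj
      have hstep : Real.circleAverage (fun z => (starRingEnd ℂ) (eval (z / (r : ℂ)) (1 : ℂ[X])) *
          eval (z / (r : ℂ)) (X ^ j) * (((h z).re : ℝ) : ℂ)) 0 r
          = Real.circleAverage (fun z => (2⁻¹ : ℂ) • (((z / (r : ℂ)) ^ j * h z) +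
            (Complex.conjCLE.toContinuousLinearMap ∘ (fun z => ((r : ℂ) / z) ^ j * h z)) z)) 0 r := by
        apply Real.circleAverage_congr_sphere
        intro z hz
        rw [hrabs] at hz
        have hz' : ‖z‖ = r := by simpa using hz
        have hz0 : z ≠ 0 := by
          rintro rfl
          simp at hz'
          exact hr.ne hz'
        have h1 : (starRingEnd ℂ) ((r : ℂ) / z) = z / (r : ℂ) := by
          rw [map_div₀, Complex.conj_ofReal]
          have h2 : (starRingEnd ℂ) z ≠ 0 := by simpa using hz0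
          rw [div_eq_div_iff h2 hr0, Complex.mul_conj, Complex.normSq_eq_norm_sq, hz']
          push_cast; ring
        simp only [eval_one, map_one, one_mul, eval_pow, eval_X, Function.comp,
          ContinuousLinearEquiv.coe_coe, Complex.conjCLE_apply, map_mul, map_pow, h1, smul_eq_mul]
        rw [Complex.re_eq_add_conj]
        ring
      rw [hstep, Real.circleAverage_fun_smul, Real.circleAverage_fun_add, havg, hconj]
      · simp; ring
      · apply ContinuousOn.circleIntegrable hr.le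
        exact ContinuousOn.mul (Continuous.continuousOn (by fun_prop)) hhc
      · apply ContinuousOn.circleIntegrable hr.le
        have : ∀ z ∈ Metric.sphere (0 : ℂ) r, z ≠ 0 := by
          rintro z hz rfl
          simp at hz
          exact hr.ne hz
        exact (Complex.conjCLE.continuous.comp_continuousOn
          (((continuousOn_const.div continuousOn_id this).pow j).mul hhc))
    have he : ‖(1 : ℂ[X])‖ = 1 := by
      have h1 : ‖(1 : ℂ[X])‖ ^ 2 = 1 := by
        rw [hnorm, ← hinner]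
        have := hτ 0
        rw [pow_zero, Module.End.one_apply] at this
        rw [this]
        simp [h0]
      have h2 : ‖(1 : ℂ[X])‖ ^ 2 = 1 ^ 2 := by rw [h1]; norm_num
      exact (sq_eq_sq₀ (norm_nonneg _) zero_le_one).1 h2
    have := abstract_bound Z hZ (1 : ℂ[X]) he m hm0 hpos hlc
      (fun k => (r : ℂ) ^ k * (starRingEnd ℂ) (q k)) (by simp [hq0]) (by
        intro k
        rw [hq k, map_neg, map_sum, mul_neg, neg_inj, Finset.mul_sum]
        refine Finset.sum_congr rfl fun j hj => ?_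
        rw [Finset.mem_range] at hj
        rw [hτ, map_mul, map_mul, Complex.conj_ofReal]
        have e1 : (r : ℂ) ^ (k + 1) = (r : ℂ) ^ (j + 1) * (r : ℂ) ^ (k - j) := by
          rw [← pow_add]; congr 1; omega
        rw [e1]
        simp
        ring) n
    simp only [norm_mul, norm_pow, Complex.norm_real, Real.norm_of_nonneg hr.le, RCLike.norm_conj] at this
    exact this
  -- let r → 1
  have hlim : Filter.Tendsto (fun r : ℝ => r ^ (n + 1) * ‖q (n + 1)‖) (nhdsWithin 1 (Set.Iio 1))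
      (nhds ((1 : ℝ) ^ (n + 1) * ‖q (n + 1)‖)) := by
    apply Filter.Tendsto.mono_left _ nhdsWithin_le_nhds
    exact (Continuous.tendsto (by fun_prop) 1)
  rw [one_pow, one_mul] at hlim
  refine le_of_tendsto hlim ?_
  have : Set.Ioo (0 : ℝ) 1 ∈ nhdsWithin (1 : ℝ) (Set.Iio 1) := Ioo_mem_nhdsLT (by norm_num)
  filter_upwards [this] with r hr
  exact key r hr.1 hr.2

end Circle

section Formal
open PowerSeries

/-- Generalised binomial coefficients. -/
noncomputable def bin (γ : ℝ) : ℕ → ℝ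
  | 0 => 1
  | k + 1 => bin γ k * (γ - k) / (k + 1)

lemma coeff_pow_eq_zero (x : ℂ⟦X⟧) (hx : constantCoeff x = 0) {n k : ℕ} (h : n < k) :
    coeff n (x ^ k) = 0 := by
  have h1 : (X : ℂ⟦X⟧) ∣ x := by rwa [X_dvd_iff]
  have h2 : (X : ℂ⟦X⟧) ^ k ∣ x ^ k := pow_dvd_pow_of_dvd h1 k
  exact X_pow_dvd_iff.1 h2 n h

lemma partial_ode (γ : ℝ) (x : ℂ⟦X⟧) (N : ℕ) :
    (1 + x) * d⁄dX ℂ (∑ k ∈ range (N + 1), C (bin γ k : ℂ) * x ^ k)
      = C (γ : ℂ) * d⁄dX ℂ x * (∑ k ∈ range (N + 1), C (bin γ k : ℂ) * x ^ k)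
        + C ((((N : ℝ) - γ) * bin γ N : ℝ) : ℂ) * (d⁄dX ℂ x * x ^ N) := by
  induction N with
  | zero =>
    simp [bin]
  | succ N ih =>
    rw [Finset.sum_range_succ, map_add, mul_add, ih, mul_add]
    have h1 : d⁄dX ℂ (C (bin γ (N + 1) : ℂ) * x ^ (N + 1))
        = C (((N + 1 : ℝ) * bin γ (N + 1) : ℝ) : ℂ) * (x ^ N * d⁄dX ℂ x) := by
      rw [Derivation.leibniz, Derivation.leibniz_pow]
      have : d⁄dX ℂ (C (bin γ (N + 1) : ℂ)) = 0 := by
        ext n; simp
      rw [this]
      simp only [smul_eq_mul, nsmul_eq_mul, mul_zero, add_zero]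
      push_cast
      simp only [map_mul, map_add, map_natCast, map_one]
      ring
    rw [h1]
    have h2 : ((N + 1 : ℝ) * bin γ (N + 1) : ℝ) = bin γ N * (γ - N) := by
      rw [bin]; field_simp
    have h3 : ((((N + 1 : ℕ) : ℝ) - γ) * bin γ (N + 1) : ℝ)
        = bin γ N * (γ - N) - γ * bin γ (N + 1) := by
      rw [← h2]; push_cast; ring
    rw [h2, h3]
    push_cast
    simp only [map_mul, map_sub]
    ring

lemma formal_power (γ : ℝ) (x W : ℂ⟦X⟧) (hx : constantCoeff x = 0) (hW0 : constantCoeff W = 1)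
    (hode : (1 + x) * d⁄dX ℂ W = C (γ : ℂ) * d⁄dX ℂ x * W) (n : ℕ) :
    coeff n W = ∑ k ∈ range (n + 1), (bin γ k : ℂ) * coeff n (x ^ k) := by
  set V : ℂ⟦X⟧ := ∑ k ∈ range (n + 1), C (bin γ k : ℂ) * x ^ k with hV
  have hVc : coeff n V = ∑ k ∈ range (n + 1), (bin γ k : ℂ) * coeff n (x ^ k) := by
    rw [hV, map_sum]
    refine Finset.sum_congr rfl fun k _ => ?_
    rw [coeff_C_mul]
  rw [← hVc]
  have hD : (1 + x) * d⁄dX ℂ (W - V) = C (γ : ℂ) * d⁄dX ℂ x * (W - V)
      - C ((((n : ℝ) - γ) * bin γ n : ℝ) : ℂ) * (d⁄dX ℂ x * x ^ n) := by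
    rw [map_sub, mul_sub, hode, hV, partial_ode]
    ring
  have key : ∀ j, j ≤ n → coeff j (W - V) = 0 := by
    intro j
    induction j using Nat.strong_induction_on with
    | _ j ih =>
      intro hj
      rcases Nat.eq_zero_or_pos j with h0 | hpos
      · subst h0
        rw [map_sub, coeff_zero_eq_constantCoeff_apply, coeff_zero_eq_constantCoeff_apply, hW0, hV,
          map_sum, Finset.sum_range_succ']
        have : ∑ k ∈ range n, constantCoeff (C (bin γ (k + 1) : ℂ) * x ^ (k + 1)) = 0 := by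
          apply Finset.sum_eq_zero
          intro k _
          rw [map_mul, map_pow, hx]; simp
        rw [this]
        simp [bin]
      · obtain ⟨i, rfl⟩ : ∃ i, j = i + 1 := ⟨j - 1, by omega⟩
        have h1 := congrArg (coeff i) hD
        rw [add_mul, one_mul, map_add, map_sub (coeff i), coeff_derivative, coeff_mul, coeff_mul,
          coeff_C_mul, coeff_mul] at h1
        have e1 : ∑ p ∈ Finset.HasAntidiagonal.antidiagonal i, coeff p.1 x * coeff p.2 (d⁄dX ℂ (W - V)) = 0 := by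
          apply Finset.sum_eq_zero
          rintro ⟨a, b⟩ hab
          rw [Finset.HasAntidiagonal.mem_antidiagonal] at hab
          simp only at hab ⊢
          rcases Nat.eq_zero_or_pos a with ha | ha
          · subst ha
            rw [coeff_zero_eq_constantCoeff_apply, hx, zero_mul]
          · rw [coeff_derivative, ih (b + 1) (by omega) (by omega)]; simp
        have e2 : ∑ p ∈ Finset.HasAntidiagonal.antidiagonal i, coeff p.1 (C (γ : ℂ) * d⁄dX ℂ x) * coeff p.2 (W - V) = 0 := by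
          apply Finset.sum_eq_zero
          rintro ⟨a, b⟩ hab
          rw [Finset.HasAntidiagonal.mem_antidiagonal] at hab
          simp only at hab ⊢
          rw [ih b (by omega) (by omega), mul_zero]
        have e3 : ∑ p ∈ Finset.HasAntidiagonal.antidiagonal i, coeff p.1 (d⁄dX ℂ x) * coeff p.2 (x ^ n) = 0 := by
          apply Finset.sum_eq_zero
          rintro ⟨a, b⟩ hab
          rw [Finset.HasAntidiagonal.mem_antidiagonal] at hab
          simp only at hab ⊢
          rw [coeff_pow_eq_zero x hx (by omega : b < n), mul_zero]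
        rw [e1, e2, e3] at h1
        simp only [add_zero, mul_zero, sub_zero] at h1
        rcases mul_eq_zero.1 h1 with h | h
        · exact h
        · exfalso
          have : ((i : ℂ) + 1) ≠ 0 := by exact_mod_cast Nat.succ_ne_zero i
          exact this h
  have := key n le_rfl
  rw [map_sub, sub_eq_zero] at this
  exact this

/-- coefficients of `1/(1+u x)`. -/
noncomputable def gco (x : ℂ⟦X⟧) (u : ℂ) (n : ℕ) : ℂ :=
  ∑ k ∈ range (n + 1), (-u) ^ k * coeff n (x ^ k)

lemma gco_zero (x : ℂ⟦X⟧) (u : ℂ) : gco x u 0 = 1 := by simp [gco]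

lemma gco_succ (x : ℂ⟦X⟧) (hx : constantCoeff x = 0) (u : ℂ) (n : ℕ) :
    gco x u (n + 1) = - ∑ j ∈ range (n + 1), (u * coeff (j + 1) x) * gco x u (n - j) := by
  unfold gco
  rw [Finset.sum_range_succ']
  have h0 : coeff (n + 1) (x ^ 0) = 0 := by simp [coeff_one]
  rw [h0, mul_zero, add_zero]
  have h1 : ∀ k, coeff (n + 1) (x ^ (k + 1))
      = ∑ j ∈ range (n + 1), coeff (j + 1) x * coeff (n - j) (x ^ k) := by
    intro k
    rw [pow_succ', coeff_mul, Finset.Nat.sum_antidiagonal_eq_sum_range_succ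
      (fun a b => coeff a x * coeff b (x ^ k)), Finset.sum_range_succ']
    rw [coeff_zero_eq_constantCoeff_apply, hx, zero_mul, add_zero]
    refine Finset.sum_congr rfl fun j _ => ?_
    have : n + 1 - (j + 1) = n - j := by omega
    rw [this]
  simp_rw [h1, Finset.mul_sum]
  rw [Finset.sum_comm, ← Finset.sum_neg_distrib]
  refine Finset.sum_congr rfl fun j hj => ?_
  rw [Finset.mem_range] at hj
  have h2 : ∑ k ∈ range (n + 1), (-u) ^ (k + 1) * (coeff (j + 1) x * coeff (n - j) (x ^ k))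
      = ∑ k ∈ range (n - j + 1), (-u) ^ (k + 1) * (coeff (j + 1) x * coeff (n - j) (x ^ k)) := by
    symm
    apply Finset.sum_subset
    · intro k hk
      rw [Finset.mem_range] at hk ⊢
      omega
    · intro k _ hk
      rw [Finset.mem_range] at hk
      rw [coeff_pow_eq_zero x hx (by omega : n - j < k)]
      ring
  rw [h2, ← Finset.sum_neg_distrib]
  refine Finset.sum_congr rfl fun k _ => ?_
  ring

end Formal

section Beta
open MeasureTheory intervalIntegral

/-- The weight `(1-u)^γ u^s`. -/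
noncomputable def wt (γ s u : ℝ) : ℝ := (1 - u) ^ γ * u ^ s

lemma wt_integrable (γ s : ℝ) (hγ : 0 < γ) (hs : -1 < s) :
    IntervalIntegrable (wt γ s) volume 0 1 := by
  unfold wt
  apply IntervalIntegrable.continuousOn_mul (intervalIntegrable_rpow' hs)
  apply ContinuousOn.rpow_const
  · fun_prop
  · intro x _; right; exact hγ.le

lemma wt_rec (γ : ℝ) (hγ : 0 < γ) (hγ1 : γ < 1) (k : ℕ) :
    ((k : ℝ) + 2) * ∫ u in (0 : ℝ)..1, wt γ ((k : ℝ) + 1 - γ) u
      = ((k : ℝ) + 1 - γ) * ∫ u in (0 : ℝ)..1, wt γ ((k : ℝ) - γ) u := by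
  have hk : (0 : ℝ) ≤ k := Nat.cast_nonneg k
  have h := intervalIntegral.integral_eq_sub_of_hasDerivAt_of_le (a := 0) (b := 1)
    (f := fun u : ℝ => (1 - u) ^ (γ + 1) * u ^ ((k : ℝ) + 1 - γ))
    (f' := fun u : ℝ => ((k : ℝ) + 1 - γ) * wt γ ((k : ℝ) - γ) u
      - ((k : ℝ) + 2) * wt γ ((k : ℝ) + 1 - γ) u) (by norm_num) ?_ ?_ ?_
  · have h1 : IntervalIntegrable (fun u => ((k : ℝ) + 1 - γ) * wt γ ((k : ℝ) - γ) u) volume 0 1 :=
      (wt_integrable γ _ hγ (by linarith)).const_mul _
    have h2 : IntervalIntegrable (fun u => ((k : ℝ) + 2) * wt γ ((k : ℝ) + 1 - γ) u) volume 0 1 :=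
      (wt_integrable γ _ hγ (by linarith)).const_mul _
    rw [intervalIntegral.integral_sub h1 h2, intervalIntegral.integral_const_mul,
      intervalIntegral.integral_const_mul] at h
    have e1 : (1 - (1 : ℝ)) ^ (γ + 1) = 0 := by
      rw [sub_self, Real.zero_rpow]; linarith
    have e2 : (0 : ℝ) ^ ((k : ℝ) + 1 - γ) = 0 := by
      rw [Real.zero_rpow]; linarith
    rw [e1, e2] at h
    linarith
  · apply ContinuousOn.mul
    · apply ContinuousOn.rpow_const
      · fun_prop
      · intro x _; right; linarith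
    · apply ContinuousOn.rpow_const
      · fun_prop
      · intro x _; right; linarith
  · intro u hu
    have hu0 : 0 < u := hu.1
    have hu1 : 0 < 1 - u := by linarith [hu.2]
    have d1 : HasDerivAt (fun u : ℝ => (1 - u) ^ (γ + 1)) (-1 * (γ + 1) * (1 - u) ^ (γ + 1 - 1)) u := by
      have := ((hasDerivAt_id u).const_sub 1).rpow_const (p := γ + 1) (Or.inl hu1.ne')
      simpa using this
    have d2 : HasDerivAt (fun u : ℝ => u ^ ((k : ℝ) + 1 - γ))
        (((k : ℝ) + 1 - γ) * u ^ ((k : ℝ) + 1 - γ - 1)) u :=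
      Real.hasDerivAt_rpow_const (Or.inl hu0.ne')
    refine (d1.mul d2).congr_deriv ?_
    unfold wt
    have r1 : (1 - u) ^ (γ + 1 - 1) = (1 - u) ^ γ := by congr 1; ring
    have r2 : (1 - u) ^ (γ + 1) = (1 - u) ^ γ * (1 - u) := by
      rw [Real.rpow_add hu1, Real.rpow_one]
    have r3 : u ^ ((k : ℝ) + 1 - γ) = u ^ ((k : ℝ) - γ) * u := by
      rw [← Real.rpow_add_one hu0.ne']; congr 1; ring
    have r4 : u ^ ((k : ℝ) + 1 - γ - 1) = u ^ ((k : ℝ) - γ) := by congr 1; ring
    rw [r1, r2, r3, r4]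
    ring
  · exact ((wt_integrable γ _ hγ (by linarith)).const_mul _).sub
      ((wt_integrable γ _ hγ (by linarith)).const_mul _)

lemma wt_pos (γ : ℝ) (hγ : 0 < γ) (hγ1 : γ < 1) : 0 < ∫ u in (0 : ℝ)..1, wt γ (-γ) u := by
  apply intervalIntegral.intervalIntegral_pos_of_pos_on (wt_integrable γ _ hγ (by linarith))
  · intro x hx
    unfold wt
    have h1 : 0 < 1 - x := by linarith [hx.2]
    have h0 : 0 < x := hx.1
    positivity
  · norm_num

lemma bin_eq (γ : ℝ) (hγ : 0 < γ) (hγ1 : γ < 1) (k : ℕ) :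
    bin γ (k + 1) = (γ / ∫ u in (0 : ℝ)..1, wt γ (-γ) u) *
      ((-1) ^ k * ∫ u in (0 : ℝ)..1, wt γ ((k : ℝ) - γ) u) := by
  have hK := wt_pos γ hγ hγ1
  induction k with
  | zero =>
    simp only [Nat.cast_zero, zero_sub, pow_zero, one_mul]
    rw [div_mul_cancel₀ _ hK.ne']
    simp [bin]
  | succ k ih =>
    rw [bin, ih]
    have h := wt_rec γ hγ hγ1 k
    have hk2 : ((k : ℝ) + 2) ≠ 0 := by positivity
    have h2 : (∫ u in (0 : ℝ)..1, wt γ ((k : ℝ) + 1 - γ) u)
      = ((k : ℝ) + 1 - γ) * (∫ u in (0 : ℝ)..1, wt γ ((k : ℝ) - γ) u) / ((k : ℝ) + 2) := by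
      field_simp
      linarith
    push_cast
    rw [h2]
    have h3 : (k : ℝ) + 1 + 1 = k + 2 := by ring
    rw [h3]
    field_simp
    ring

/-- From the bound for `1/(1+u x)` to the bound for the power `γ`. -/
lemma power_bound (γ : ℝ) (hγ : 0 < γ) (hγ1 : γ < 1) (n : ℕ) (a : ℕ → ℂ) (M : ℝ)
    (hM : ∀ u : ℝ, 0 < u → u ≤ 1 →
      ‖∑ k ∈ range n, (-(u : ℂ)) ^ (k + 1) * a k‖ ≤ 2 * (u * M)) :
    ‖∑ k ∈ range n, (bin γ (k + 1) : ℂ) * a k‖ ≤ 2 * (γ * M) := by
  have hK := wt_pos γ hγ hγ1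
  set K := ∫ u in (0 : ℝ)..1, wt γ (-γ) u with hKdef
  have hint : ∀ k ∈ range n, IntervalIntegrable
      (fun u : ℝ => ((-1 : ℂ) ^ k * a k) * ((wt γ ((k : ℝ) - γ) u : ℝ) : ℂ)) volume 0 1 := by
    intro k _
    apply IntervalIntegrable.const_mul
    have h1 := wt_integrable γ ((k : ℝ) - γ) hγ
      (by have : (0 : ℝ) ≤ k := Nat.cast_nonneg k; linarith)
    exact ⟨h1.1.ofReal, h1.2.ofReal⟩
  have h1 : ∑ k ∈ range n, (bin γ (k + 1) : ℂ) * a k
      = ((γ / K : ℝ) : ℂ) * ∫ u in (0 : ℝ)..1,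
        ∑ k ∈ range n, ((-1 : ℂ) ^ k * a k) * ((wt γ ((k : ℝ) - γ) u : ℝ) : ℂ) := by
    rw [intervalIntegral.integral_finsetSum hint, Finset.mul_sum]
    refine Finset.sum_congr rfl fun k _ => ?_
    rw [intervalIntegral.integral_const_mul, intervalIntegral.integral_ofReal, bin_eq γ hγ hγ1 k]
    push_cast
    ring
  rw [h1, norm_mul, Complex.norm_real, Real.norm_of_nonneg (by positivity)]
  have h2 : ‖∫ u in (0 : ℝ)..1,
        ∑ k ∈ range n, ((-1 : ℂ) ^ k * a k) * ((wt γ ((k : ℝ) - γ) u : ℝ) : ℂ)‖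
      ≤ ∫ u in (0 : ℝ)..1, (2 * M) * wt γ (-γ) u := by
    apply intervalIntegral.norm_integral_le_of_norm_le (by norm_num)
    · refine Filter.Eventually.of_forall fun u hu => ?_
      have hu0 : 0 < u := hu.1
      have hu1 : 0 ≤ 1 - u := by linarith [hu.2]
      have e1 : ∑ k ∈ range n, ((-1 : ℂ) ^ k * a k) * ((wt γ ((k : ℝ) - γ) u : ℝ) : ℂ)
          = -(((1 - u) ^ γ * u ^ (-γ - 1) : ℝ) : ℂ) * ∑ k ∈ range n, (-(u : ℂ)) ^ (k + 1) * a k := by
        rw [Finset.mul_sum]
        refine Finset.sum_congr rfl fun k _ => ?_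
        have e2 : u ^ ((k : ℝ) - γ) = u ^ (-γ - 1) * u ^ (k + 1) := by
          rw [← Real.rpow_natCast u (k + 1), ← Real.rpow_add hu0]
          congr 1; push_cast; ring
        unfold wt
        rw [e2]
        push_cast
        rw [neg_pow (u : ℂ) (k + 1), pow_succ (-1 : ℂ) k]
        ring
      rw [e1, norm_mul, norm_neg, Complex.norm_real, Real.norm_of_nonneg
        (mul_nonneg (Real.rpow_nonneg hu1 _) (Real.rpow_nonneg hu0.le _))]
      calc (1 - u) ^ γ * u ^ (-γ - 1) * ‖∑ k ∈ range n, (-(u : ℂ)) ^ (k + 1) * a k‖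
          ≤ (1 - u) ^ γ * u ^ (-γ - 1) * (2 * (u * M)) :=
            mul_le_mul_of_nonneg_left (hM u hu0 hu.2)
              (mul_nonneg (Real.rpow_nonneg hu1 _) (Real.rpow_nonneg hu0.le _))
        _ = (2 * M) * wt γ (-γ) u := by
            unfold wt
            have : u ^ (-γ) = u ^ (-γ - 1) * u := by
              rw [← Real.rpow_add_one hu0.ne']; congr 1; ring
            rw [this]; ring
    · exact (wt_integrable γ _ hγ (by linarith)).const_mul _
  rw [intervalIntegral.integral_const_mul, ← hKdef] at h2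
  calc γ / K * _ ≤ γ / K * (2 * M * K) := mul_le_mul_of_nonneg_left h2 (by positivity)
    _ = 2 * (γ * M) := by field_simp

end Beta

/-! ### final assembly -/

/-- The case `γ = 1`. -/
lemma power_bound_one (n : ℕ) (a : ℕ → ℂ) (M : ℝ)
    (hM : ∀ u : ℝ, 0 < u → u ≤ 1 →
      ‖∑ k ∈ range (n + 1), (-(u : ℂ)) ^ (k + 1) * a k‖ ≤ 2 * (u * M)) :
    ‖∑ k ∈ range (n + 1), (bin 1 (k + 1) : ℂ) * a k‖ ≤ 2 * (1 * M) := by
  have hb : ∀ k, bin 1 (k + 2) = 0 := by
    intro k
    induction k with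
    | zero => simp [bin]
    | succ k ih => rw [bin, ih]; simp
  have h1 : ∑ k ∈ range (n + 1), (bin 1 (k + 1) : ℂ) * a k = a 0 := by
    rw [Finset.sum_range_succ']
    rw [Finset.sum_eq_zero (fun k _ => by rw [show k + 1 + 1 = k + 2 from rfl, hb k]; simp)]
    simp [bin]
  rw [h1, one_mul]
  have h2 : ∀ u : ℝ, u ∈ Set.Ioc (0 : ℝ) 1 →
      ‖∑ k ∈ range (n + 1), (-(u : ℂ)) ^ k * a k‖ ≤ 2 * M := by
    intro u hu
    have h3 := hM u hu.1 hu.2
    have h4 : ∑ k ∈ range (n + 1), (-(u : ℂ)) ^ (k + 1) * a k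
        = (-(u : ℂ)) * ∑ k ∈ range (n + 1), (-(u : ℂ)) ^ k * a k := by
      rw [Finset.mul_sum]
      exact Finset.sum_congr rfl fun k _ => by ring
    rw [h4, norm_mul, norm_neg, Complex.norm_real, Real.norm_of_nonneg hu.1.le] at h3
    have h5 : u * ‖∑ k ∈ range (n + 1), (-(u : ℂ)) ^ k * a k‖ ≤ u * (2 * M) := by linarith
    exact le_of_mul_le_mul_left h5 hu.1
  have hlim : Filter.Tendsto (fun u : ℝ => ‖∑ k ∈ range (n + 1), (-(u : ℂ)) ^ k * a k‖)
      (nhdsWithin 0 (Set.Ioi 0)) (nhds ‖∑ k ∈ range (n + 1), (-((0 : ℝ) : ℂ)) ^ k * a k‖) := by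
    apply Filter.Tendsto.mono_left _ nhdsWithin_le_nhds
    exact Continuous.tendsto (by fun_prop) 0
  have h6 : ∑ k ∈ range (n + 1), (-((0 : ℝ) : ℂ)) ^ k * a k = a 0 := by
    rw [Finset.sum_range_succ']
    rw [Finset.sum_eq_zero (fun k _ => by simp)]
    simp
  rw [h6] at hlim
  refine le_of_tendsto hlim ?_
  have : Set.Ioc (0 : ℝ) 1 ∈ nhdsWithin (0 : ℝ) (Set.Ioi 0) := Ioc_mem_nhdsGT (by norm_num)
  filter_upwards [this] with u hu
  exact h2 u hu

/-- Taylor coefficients at the origin. -/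
noncomputable def tc (F : ℂ → ℂ) (n : ℕ) : ℂ := iteratedDeriv n F 0 / (n.factorial : ℂ)

lemma tc_mul (F G : ℂ → ℂ) (hF : AnalyticAt ℂ F 0) (hG : AnalyticAt ℂ G 0) (n : ℕ) :
    tc (F * G) n = ∑ i ∈ range (n + 1), tc F i * tc G (n - i) := by
  unfold tc
  rw [iteratedDeriv_mul hF.contDiffAt hG.contDiffAt, Finset.sum_div]
  refine Finset.sum_congr rfl fun i hi => ?_
  rw [Finset.mem_range] at hi
  have h1 : (n.factorial : ℂ) = (n.choose i : ℂ) * (i.factorial : ℂ) * ((n - i).factorial : ℂ) := by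
    rw [← Nat.choose_mul_factorial_mul_factorial (by omega : i ≤ n)]
    push_cast; ring
  have h2 : (n.choose i : ℂ) ≠ 0 := by
    exact_mod_cast (Nat.choose_pos (by omega : i ≤ n)).ne'
  have h3 : (i.factorial : ℂ) ≠ 0 := by exact_mod_cast i.factorial_ne_zero
  have h4 : ((n - i).factorial : ℂ) ≠ 0 := by exact_mod_cast (n - i).factorial_ne_zero
  rw [h1]
  field_simp

lemma tc_deriv (F : ℂ → ℂ) (n : ℕ) : tc (deriv F) n = (n + 1) * tc F (n + 1) := by
  unfold tc
  rw [iteratedDeriv_succ']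
  have h3 : (n.factorial : ℂ) ≠ 0 := by exact_mod_cast n.factorial_ne_zero
  have h4 : ((n : ℂ) + 1) ≠ 0 := by exact_mod_cast Nat.succ_ne_zero n
  rw [Nat.factorial_succ]
  push_cast
  field_simp

lemma tc_congr (F G : ℂ → ℂ) (h : F =ᶠ[nhds 0] G) (n : ℕ) : tc F n = tc G n := by
  unfold tc
  rw [h.iteratedDeriv_eq]

lemma tc_id (n : ℕ) : tc (fun z => z) n = if n = 1 then 1 else 0 := by
  unfold tc
  rcases n with _ | _ | n
  · simp
  · simp [iteratedDeriv_succ']
  · have : iteratedDeriv (n + 1 + 1) (fun z : ℂ => z) 0 = 0 := by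
      rw [iteratedDeriv_succ', iteratedDeriv_succ']
      have h1 : deriv (fun z : ℂ => z) = fun _ => 1 := by funext z; simp
      have h2 : deriv (fun _ : ℂ => (1 : ℂ)) = fun _ => 0 := by funext z; simp
      rw [h1, h2]
      simp
    rw [this]; simp

lemma tc_id_mul (G : ℂ → ℂ) (hG : AnalyticAt ℂ G 0) (n : ℕ) :
    tc (fun z => z * G z) (n + 1) = tc G n := by
  have h := tc_mul (fun z => z) G analyticAt_id hG (n + 1)
  have h0 : ((fun z : ℂ => z) * G) = fun z => z * G z := rfl
  rw [h0] at h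
  rw [h, Finset.sum_eq_single 1]
  · rw [tc_id]; simp
  · intro b _ hb
    rw [tc_id, if_neg hb, zero_mul]
  · intro hb
    exfalso; apply hb; simp

/-- The Bazilevic class `B₁(α)`: `f` is analytic on the unit disk, `f(0)=0`, `f'(0)=1`,
`f(z)/z` does not vanish, and `Re[(f(z)/z)^(α-1) f'(z)] > 0`, where the power is
`exp((α-1) L(z))` for the analytic branch `L` of `log (f(z)/z)` with `L(0)=0`. -/
structure IsBazilevicB1 (α : ℝ) (f : ℂ → ℂ) : Prop where
  analytic : DifferentiableOn ℂ f (Metric.ball 0 1)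
  map_zero : f 0 = 0
  deriv_zero : deriv f 0 = 1
  ne_zero : ∀ z ∈ Metric.ball (0 : ℂ) 1, z ≠ 0 → f z ≠ 0
  re_pos : ∃ L : ℂ → ℂ, DifferentiableOn ℂ L (Metric.ball 0 1) ∧ L 0 = 0 ∧
    (∀ z ∈ Metric.ball (0 : ℂ) 1, f z = z * Complex.exp (L z)) ∧
    ∀ z ∈ Metric.ball (0 : ℂ) 1, 0 < (Complex.exp (((α : ℂ) - 1) * L z) * deriv f z).re

theorem result : ∀ (α : ℝ), 1 ≤ α → ∀ (f : ℂ → ℂ), IsBazilevicB1 α f → ∀ (n : ℕ), 2 ≤ n →
    ‖iteratedDeriv n f 0 / (n.factorial : ℂ)‖ ≤ 2 / ((n : ℝ) - 1 + α) := by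
  intro α hα f hf n hn
  obtain ⟨L, hL, hL0, hfL, hre⟩ := hf.re_pos
  have hα0 : 0 < α := by linarith
  have hαC : (α : ℂ) ≠ 0 := by exact_mod_cast hα0.ne'
  have hopen : IsOpen (Metric.ball (0 : ℂ) 1) := Metric.isOpen_ball
  have hmem0 : (0 : ℂ) ∈ Metric.ball (0 : ℂ) 1 := Metric.mem_ball_self one_pos
  have hnhds : Metric.ball (0 : ℂ) 1 ∈ nhds (0 : ℂ) := hopen.mem_nhds hmem0
  set ω : ℂ → ℂ := fun z => Complex.exp (L z) with hω
  set P : ℂ → ℂ := fun z => Complex.exp ((α : ℂ) * L z) with hP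
  set h : ℂ → ℂ := fun z => Complex.exp (((α : ℂ) - 1) * L z) * deriv f z with hh
  have hLd : ∀ z ∈ Metric.ball (0 : ℂ) 1, HasDerivAt L (deriv L z) z := fun z hz =>
    (hL.differentiableAt (hopen.mem_nhds hz)).hasDerivAt
  have hωd : ∀ z ∈ Metric.ball (0 : ℂ) 1, HasDerivAt ω (Complex.exp (L z) * deriv L z) z :=
    fun z hz => (hLd z hz).cexp
  have hPd : ∀ z ∈ Metric.ball (0 : ℂ) 1,
      HasDerivAt P (Complex.exp ((α : ℂ) * L z) * ((α : ℂ) * deriv L z)) z :=
    fun z hz => ((hLd z hz).const_mul (α : ℂ)).cexp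
  have hωan : AnalyticAt ℂ ω 0 := DifferentiableOn.analyticAt
    (fun z hz => (hωd z hz).differentiableAt.differentiableWithinAt) hnhds
  have hPan : AnalyticAt ℂ P 0 := DifferentiableOn.analyticAt
    (fun z hz => (hPd z hz).differentiableAt.differentiableWithinAt) hnhds
  -- derivative of f
  have hfd : ∀ z ∈ Metric.ball (0 : ℂ) 1,
      deriv f z = Complex.exp (L z) + z * (Complex.exp (L z) * deriv L z) := by
    intro z hz
    have h1 : f =ᶠ[nhds z] fun z => z * ω z := by
      filter_upwards [hopen.mem_nhds hz] with w hw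
      exact hfL w hw
    rw [h1.deriv_eq]
    have := (hasDerivAt_id z).mul (hωd z hz)
    have h2 : (id * ω) = fun z => z * ω z := rfl
    rw [h2] at this
    rw [this.deriv]
    simp [hω]
  have hhP : ∀ z ∈ Metric.ball (0 : ℂ) 1, h z = P z + (α : ℂ)⁻¹ * (z * deriv P z) := by
    intro z hz
    rw [(hPd z hz).deriv]
    simp only [hh, hP]
    rw [hfd z hz]
    have e1 : Complex.exp ((α : ℂ) * L z) = Complex.exp (((α : ℂ) - 1) * L z) * Complex.exp (L z) := by
      rw [← Complex.exp_add]; congr 1; ring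
    rw [e1]
    field_simp
  have hhd : DifferentiableOn ℂ h (Metric.ball 0 1) := by
    apply DifferentiableOn.mul
    · exact (hL.const_mul _).cexp
    · exact hf.analytic.deriv hopen
  have hh0 : h 0 = 1 := by
    rw [hhP 0 hmem0]; simp [hP, hL0]
  have hP0 : tc P 0 = 1 := by simp [tc, hP, hL0]
  have hω0 : tc ω 0 = 1 := by simp [tc, hω, hL0]
  -- coefficients of h
  have hdPan : AnalyticAt ℂ (deriv P) 0 := hPan.deriv
  have htch : ∀ k : ℕ, tc h (k + 1) = (1 + (k + 1) / (α : ℂ)) * tc P (k + 1) := by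
    intro k
    have h1 : h =ᶠ[nhds 0] fun z => P z + (α : ℂ)⁻¹ * (z * deriv P z) := by
      filter_upwards [hnhds] with w hw
      exact hhP w hw
    rw [tc_congr _ _ h1]
    have h2 := tc_id_mul (deriv P) hdPan k
    rw [tc_deriv] at h2
    have hzP : AnalyticAt ℂ (fun z => z * deriv P z) 0 := analyticAt_id.mul hdPan
    have h3 : tc (fun z => P z + (α : ℂ)⁻¹ * (z * deriv P z)) (k + 1)
        = tc P (k + 1) + (α : ℂ)⁻¹ * tc (fun z => z * deriv P z) (k + 1) := by
      unfold tc
      have hc1 : ContDiffAt ℂ ((k + 1 : ℕ) : WithTop ℕ∞) P 0 := hPan.contDiffAt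
      have hc2 : ContDiffAt ℂ ((k + 1 : ℕ) : WithTop ℕ∞) (fun z => z * deriv P z) 0 := hzP.contDiffAt
      have h4 := iteratedDeriv_fun_add (n := k + 1) (x := (0 : ℂ)) hc1 (hc2.const_smul (α : ℂ)⁻¹)
      simp only [Pi.smul_apply, smul_eq_mul] at h4
      have h5 : iteratedDeriv (k + 1) (fun z => (α : ℂ)⁻¹ * (z * deriv P z)) 0
          = (α : ℂ)⁻¹ * iteratedDeriv (k + 1) (fun z => z * deriv P z) 0 :=
        iteratedDeriv_const_mul_field (α : ℂ)⁻¹ (fun z => z * deriv P z)
      rw [h4, h5]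
      ring
    rw [h3, h2]
    field_simp
  -- power series
  set x : PowerSeries ℂ := PowerSeries.mk (tc P) - 1 with hx
  set W : PowerSeries ℂ := PowerSeries.mk (tc ω) with hW
  have hxc : ∀ k, PowerSeries.coeff (k + 1) x = tc P (k + 1) := by
    intro k
    rw [hx, map_sub, PowerSeries.coeff_mk, PowerSeries.coeff_one]
    simp
  have hx0 : PowerSeries.constantCoeff x = 0 := by
    rw [hx, map_sub, ← PowerSeries.coeff_zero_eq_constantCoeff_apply, PowerSeries.coeff_mk, hP0]
    simp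
  have hW0 : PowerSeries.constantCoeff W = 1 := by
    rw [hW, ← PowerSeries.coeff_zero_eq_constantCoeff_apply, PowerSeries.coeff_mk, hω0]
  have hmkmul : ∀ F G : ℂ → ℂ, AnalyticAt ℂ F 0 → AnalyticAt ℂ G 0 →
      PowerSeries.mk (tc F) * PowerSeries.mk (tc G) = PowerSeries.mk (tc (F * G)) := by
    intro F G hF hG
    ext k
    rw [PowerSeries.coeff_mul, PowerSeries.coeff_mk, tc_mul F G hF hG,
      Finset.Nat.sum_antidiagonal_eq_sum_range_succ
        (fun a b => PowerSeries.coeff a (PowerSeries.mk (tc F)) *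
          PowerSeries.coeff b (PowerSeries.mk (tc G)))]
    simp [PowerSeries.coeff_mk]
  have hmkd : ∀ F : ℂ → ℂ, PowerSeries.derivative ℂ (PowerSeries.mk (tc F))
      = PowerSeries.mk (tc (deriv F)) := by
    intro F
    ext k
    rw [PowerSeries.coeff_derivative, PowerSeries.coeff_mk, PowerSeries.coeff_mk, tc_deriv]
    ring
  set γ : ℝ := 1 / α with hγ
  have hγ0 : 0 < γ := by positivity
  have hode : (1 + x) * PowerSeries.derivative ℂ W
      = PowerSeries.C (γ : ℂ) * PowerSeries.derivative ℂ x * W := by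
    have e1 : 1 + x = PowerSeries.mk (tc P) := by rw [hx]; ring
    have e2 : PowerSeries.derivative ℂ x = PowerSeries.mk (tc (deriv P)) := by
      rw [hx, map_sub, hmkd]; simp
    rw [e1, e2, hW, hmkd, mul_assoc, hmkmul _ _ hPan hωan.deriv, hmkmul _ _ hdPan hωan]
    ext k
    rw [PowerSeries.coeff_C_mul, PowerSeries.coeff_mk, PowerSeries.coeff_mk]
    have h1 : (P * deriv ω) =ᶠ[nhds 0] fun z => (γ : ℂ) * (deriv P * ω) z := by
      filter_upwards [hnhds] with w hw
      simp only [Pi.mul_apply]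
      rw [(hωd w hw).deriv, (hPd w hw).deriv, hγ]
      push_cast
      simp only [hP, hω]
      field_simp
    rw [tc_congr _ _ h1]
    unfold tc
    rw [iteratedDeriv_const_mul_field]
    ring
  -- key bound
  have hkey : ∀ (N : ℕ) (u : ℝ), 0 < u → u ≤ 1 →
      ‖∑ k ∈ range (N + 1), (-(u : ℂ)) ^ (k + 1) * PowerSeries.coeff (N + 1) (x ^ (k + 1))‖
        ≤ 2 * (u * (α / ((N : ℝ) + 1 + α))) := by
    intro N u hu0 hu1
    let m : ℕ → ℝ := fun k => if k = 0 then 1 else u * (α / ((k : ℝ) + α))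
    have hm0 : m 0 = 1 := by simp [m]
    have hms : ∀ k, m (k + 1) = u * (α / ((k : ℝ) + 1 + α)) := by
      intro k; simp [m]
    have hmpos : ∀ k, 0 < m k := by
      intro k
      rcases k with _ | k
      · rw [hm0]; exact one_pos
      · rw [hms]; positivity
    have hlc : ∀ k, m (k + 1) * m (k + 1) ≤ m k * m (k + 2) := by
      intro k
      rcases k with _ | k
      · rw [hm0, hms, show 0 + 2 = 1 + 1 from rfl, hms]
        have e1 : u * (α / (((0 : ℕ) : ℝ) + 1 + α)) * (u * (α / (((0 : ℕ) : ℝ) + 1 + α)))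
            = (u * α) * (u * α / ((1 + α) ^ 2)) := by
          push_cast; field_simp; ring
        have e2 : 1 * (u * (α / (((1 : ℕ) : ℝ) + 1 + α))) = (u * α) * (1 / (2 + α)) := by
          push_cast; field_simp; ring
        rw [e1, e2]
        apply mul_le_mul_of_nonneg_left _ (by positivity)
        rw [div_le_div_iff₀ (by positivity) (by positivity)]
        nlinarith [mul_le_mul_of_nonneg_right hu1 hα0.le]
      · rw [hms, show k + 1 + 2 = (k + 2) + 1 from rfl, hms, hms]
        push_cast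
        have e1 : u * (α / ((k : ℝ) + 1 + 1 + α)) * (u * (α / ((k : ℝ) + 1 + 1 + α)))
            = (u * α) ^ 2 * (1 / (((k : ℝ) + 2 + α) ^ 2)) := by
          field_simp; ring
        have e2 : u * (α / ((k : ℝ) + 1 + α)) * (u * (α / ((k : ℝ) + 2 + 1 + α)))
            = (u * α) ^ 2 * (1 / (((k : ℝ) + 1 + α) * ((k : ℝ) + 3 + α))) := by
          field_simp; ring
        rw [e1, e2]
        apply mul_le_mul_of_nonneg_left _ (by positivity)
        rw [div_le_div_iff₀ (by positivity) (by positivity)]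
        nlinarith
    have hb := caratheodory_bound h hhd hh0 (fun z hz => (hre z hz).le) m hm0 hmpos hlc
      (gco x (u : ℂ)) (gco_zero x _) (by
        intro k
        rw [gco_succ x hx0]
        congr 1
        refine Finset.sum_congr rfl fun j _ => ?_
        congr 1
        have e1 : iteratedDeriv (j + 1) h 0 / ((j + 1).factorial : ℂ) = tc h (j + 1) := rfl
        rw [e1, htch, hms, hxc]
        have e2 : ((j : ℂ) + 1 + (α : ℂ)) ≠ 0 := by
          have : (0 : ℝ) < (j : ℝ) + 1 + α := by positivity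
          exact_mod_cast this.ne'
        push_cast
        field_simp
        ring) N
    rw [hms] at hb
    have e1 : gco x (u : ℂ) (N + 1)
        = ∑ k ∈ range (N + 1), (-(u : ℂ)) ^ (k + 1) * PowerSeries.coeff (N + 1) (x ^ (k + 1)) := by
      unfold gco
      rw [Finset.sum_range_succ']
      simp [PowerSeries.coeff_one]
    rw [e1] at hb
    exact hb
  -- conclude
  obtain ⟨N, rfl⟩ : ∃ N, n = N + 1 + 1 := ⟨n - 2, by omega⟩
  have hfin : tc f (N + 1 + 1) = ∑ k ∈ range (N + 1), (bin γ (k + 1) : ℂ) *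
      PowerSeries.coeff (N + 1) (x ^ (k + 1)) := by
    have h1 : f =ᶠ[nhds 0] fun z => z * ω z := by
      filter_upwards [hnhds] with w hw
      exact hfL w hw
    rw [tc_congr _ _ h1, tc_id_mul ω hωan]
    have h2 := formal_power γ x W hx0 hW0 hode (N + 1)
    rw [hW, PowerSeries.coeff_mk] at h2
    rw [h2, Finset.sum_range_succ']
    simp [PowerSeries.coeff_one]
  have hbound : ‖tc f (N + 1 + 1)‖ ≤ 2 * (γ * (α / ((N : ℝ) + 1 + α))) := by
    rw [hfin]
    rcases eq_or_lt_of_le hα with h1 | h1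
    · have hγ1 : γ = 1 := by rw [hγ, ← h1]; norm_num
      rw [hγ1]
      exact power_bound_one N (fun k => PowerSeries.coeff (N + 1) (x ^ (k + 1))) _ (hkey N)
    · have hγ1 : γ < 1 := by rw [hγ, div_lt_one hα0]; exact h1
      exact power_bound γ hγ0 hγ1 (N + 1) (fun k => PowerSeries.coeff (N + 1) (x ^ (k + 1))) _ (hkey N)
  have e1 : 2 * (γ * (α / ((N : ℝ) + 1 + α))) = 2 / (((N + 1 + 1 : ℕ) : ℝ) - 1 + α) := by
    rw [hγ]
    push_cast
    have : ((N : ℝ) + 1 + α) ≠ 0 := by positivity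
    have e3 : (N : ℝ) + 1 + 1 - 1 + α = (N : ℝ) + 1 + α := by ring
    rw [e3]
    field_simp
  rw [← e1]
  exact hbound

end Pool.Agent.Results.MP_7a60ac_an.BazilevicBound
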